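import Mathlib
import Pool.Prelude.Def_F_e853f830

/-!
MP_8ef934_nt: splitting a progression into subprogressions (helper4).
-/

set_option autoImplicit false
open Necdea073

namespace Pool.Agent.W8ef934h4

open Classical in
/-- the positions of the squares -/
noncomputable def sq (N q a : ℕ) : Finset ℕ :=
  (Finset.range N).filter (fun n => IsSquare (q * n + a))

theorem mem_sq {N q a n : ℕ} : n ∈ sq N q a ↔ n < N ∧ IsSquare (q * n + a) := by
  simp [sq]

theorem Q_eq (N q a : ℕ) : Q N q a = (sq N q a).card := by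
  have h : {n : ℕ | n < N ∧ IsSquare (q * n + a)} = ((sq N q a : Finset ℕ) : Set ℕ) := by
    ext n
    simp [mem_sq]
  unfold Q
  rw [h, Set.ncard_coe_finset]

theorem Q_le (N q a : ℕ) : Q N q a ≤ N := by
  rw [Q_eq]
  calc (sq N q a).card ≤ (Finset.range N).card := Finset.card_le_card (Finset.filter_subset _ _)
    _ = N := Finset.card_range N

theorem Q_mono {M N : ℕ} (h : M ≤ N) (q a : ℕ) : Q M q a ≤ Q N q a := by
  rw [Q_eq, Q_eq]
  apply Finset.card_le_card
  intro n hn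
  rw [mem_sq] at hn ⊢
  exact ⟨by omega, hn.2⟩

theorem nontriv {q a : ℕ} (hq : 2 ≤ q) (ha : 1 ≤ a) (h : Nat.Coprime q a) : IsNontrivial q a := by
  refine ⟨by omega, ha, h, ?_⟩
  intro h'
  have := congrArg Prod.fst h'
  simp only at this
  omega

theorem nontriv_24 : IsNontrivial 24 1 := nontriv (by norm_num) le_rfl (by norm_num)

theorem bdd (N : ℕ) : BddAbove {m : ℕ | ∃ q a : ℕ, IsNontrivial q a ∧ Q N q a = m} := by
  refine ⟨N, ?_⟩
  rintro m ⟨q, a, -, rfl⟩
  exact Q_le N q a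

theorem ne (N : ℕ) : {m : ℕ | ∃ q a : ℕ, IsNontrivial q a ∧ Q N q a = m}.Nonempty :=
  ⟨Q N 24 1, 24, 1, nontriv_24, rfl⟩

theorem le_Qmax {N q a : ℕ} (h : IsNontrivial q a) : Q N q a ≤ Qmax N :=
  le_csSup (bdd N) ⟨q, a, h, rfl⟩

theorem exists_Qmax (N : ℕ) : ∃ q a : ℕ, IsNontrivial q a ∧ Q N q a = Qmax N := by
  obtain ⟨q, a, h, h'⟩ := Nat.sSup_mem (ne N) (bdd N)
  exact ⟨q, a, h, h'⟩

theorem Qmax_le {N B : ℕ} (h : ∀ q a, IsNontrivial q a → Q N q a ≤ B) : Qmax N ≤ B := by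
  obtain ⟨q, a, h1, h2⟩ := exists_Qmax N
  rw [← h2]
  exact h q a h1

theorem Qmax_mono {M N : ℕ} (h : M ≤ N) : Qmax M ≤ Qmax N := by
  apply Qmax_le
  intro q a hqa
  exact (Q_mono h q a).trans (le_Qmax hqa)

theorem Qmax_le_self (N : ℕ) : Qmax N ≤ N := Qmax_le fun q a _ => Q_le N q a

/-- a residue class of positions is a progression with difference `d q` -/
theorem sub_le {N q a d r : ℕ} (hd : 0 < d) {T : Finset ℕ} (hT : T ⊆ sq N q a)
    (hr : ∀ n ∈ T, n % d = r) : T.card ≤ Q ((N + d - 1) / d) (d * q) (q * r + a) := by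
  have hinj : Set.InjOn (fun n => n / d) (T : Set ℕ) := by
    intro x hx y hy hxy
    simp only at hxy
    have h1 := Nat.div_add_mod x d
    have h2 := Nat.div_add_mod y d
    rw [hr x hx] at h1
    rw [hr y hy, ← hxy] at h2
    omega
  rw [← Finset.card_image_of_injOn hinj, Q_eq]
  apply Finset.card_le_card
  intro m hm
  rw [Finset.mem_image] at hm
  obtain ⟨n, hn, rfl⟩ := hm
  have h1 := mem_sq.1 (hT hn)
  have h2 := Nat.div_add_mod n d
  rw [hr n hn] at h2
  rw [mem_sq]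
  constructor
  · rw [Nat.div_lt_iff_lt_mul hd]
    have h3 := Nat.div_add_mod (N + d - 1) d
    have h4 := Nat.mod_lt (N + d - 1) hd
    have h5 : d * ((N + d - 1) / d) = (N + d - 1) / d * d := mul_comm _ _
    omega
  · have h3 : d * q * (n / d) + (q * r + a) = q * n + a := by
      conv_rhs => rw [← h2]
      ring
    rw [h3]
    exact h1.2

/-- the positions of the squares which are divisible by `t ^ 2` -/
theorem div_le {N q a t r : ℕ} (ht : 0 < t) {T : Finset ℕ} (hT : T ⊆ sq N q a)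
    (hr : ∀ n ∈ T, n % (t ^ 2) = r) (hdvd : t ^ 2 ∣ q * r + a) :
    T.card ≤ Q ((N + t ^ 2 - 1) / t ^ 2) q ((q * r + a) / t ^ 2) := by
  have hd : 0 < t ^ 2 := by positivity
  have hinj : Set.InjOn (fun n => n / t ^ 2) (T : Set ℕ) := by
    intro x hx y hy hxy
    simp only at hxy
    have h1 := Nat.div_add_mod x (t ^ 2)
    have h2 := Nat.div_add_mod y (t ^ 2)
    rw [hr x hx] at h1
    rw [hr y hy, ← hxy] at h2
    omega
  rw [← Finset.card_image_of_injOn hinj, Q_eq]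
  apply Finset.card_le_card
  intro m hm
  rw [Finset.mem_image] at hm
  obtain ⟨n, hn, rfl⟩ := hm
  have h1 := mem_sq.1 (hT hn)
  have h2 := Nat.div_add_mod n (t ^ 2)
  rw [hr n hn] at h2
  rw [mem_sq]
  constructor
  · rw [Nat.div_lt_iff_lt_mul hd]
    have h3 := Nat.div_add_mod (N + t ^ 2 - 1) (t ^ 2)
    have h4 := Nat.mod_lt (N + t ^ 2 - 1) hd
    have h5 : t ^ 2 * ((N + t ^ 2 - 1) / t ^ 2) = (N + t ^ 2 - 1) / t ^ 2 * t ^ 2 := mul_comm _ _
    omega
  · obtain ⟨c, hc⟩ := hdvd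
    rw [hc, Nat.mul_div_cancel_left c hd]
    have h3 : t ^ 2 * (q * (n / t ^ 2) + c) = q * n + a := by
      conv_rhs => rw [← h2]
      rw [mul_add, ← hc]
      ring
    obtain ⟨y, hy⟩ := h1.2
    rw [← h3] at hy
    have h4 : t ∣ y := by
      have h5 : t ^ 2 ∣ y ^ 2 := ⟨q * (n / t ^ 2) + c, by rw [hy]; ring⟩
      exact (Nat.pow_dvd_pow_iff (by norm_num)).1 h5
    obtain ⟨z, hz⟩ := h4
    refine ⟨z, ?_⟩
    have h6 : t ^ 2 * (q * (n / t ^ 2) + c) = t ^ 2 * (z * z) := by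
      rw [hy, hz]
      ring
    exact Nat.eq_of_mul_eq_mul_left hd h6

end Pool.Agent.W8ef934h4
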