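import Mathlib
import Pool.Agent.W_8ef934_h4.Base

/-!
MP_8ef934_nt: progressions whose difference is not a multiple of 24 (helper4).
-/

set_option autoImplicit false
open Necdea073

namespace Pool.Agent.W8ef934h4

theorem common {q a d v : ℕ} (hqd : Nat.Coprime d q) {T : Finset ℕ}
    (hT : ∀ n ∈ T, (q * n + a) % d = v) (hne : T.Nonempty) :
    ∃ r, (∀ n ∈ T, n % d = r) ∧ (q * r + a) % d = v := by
  obtain ⟨n₀, hn₀⟩ := hne
  refine ⟨n₀ % d, fun n hn => ?_, ?_⟩
  · have h1 : q * n + a ≡ q * n₀ + a [MOD d] := by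
      unfold Nat.ModEq
      rw [hT n hn, hT n₀ hn₀]
    have h2 : q * n ≡ q * n₀ [MOD d] := Nat.ModEq.add_right_cancel' a h1
    exact Nat.ModEq.cancel_left_of_coprime hqd h2
  · rw [← hT n₀ hn₀]
    have h1 : q * (n₀ % d) + a ≡ q * n₀ + a [MOD d] :=
      Nat.ModEq.add_right a (Nat.ModEq.mul_left q (Nat.mod_modEq n₀ d))
    exact h1

theorem cop_add {q a r : ℕ} (h : Nat.Coprime q a) : Nat.Coprime q (q * r + a) := by
  simpa using h

theorem cop_of_mod {d v m : ℕ} (h : m % d = v) (hv : Nat.Coprime d v) : Nat.Coprime d m := by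
  rw [← h] at hv
  unfold Nat.Coprime at hv ⊢
  rw [Nat.gcd_rec, Nat.gcd_comm]
  exact hv

/-- class with `q n + a` invertible modulo `d` -/
theorem class_le {N q a d v : ℕ} (hd : 2 ≤ d) (hv : Nat.Coprime d v) (hqd : Nat.Coprime d q)
    (hq : 1 ≤ q) (ha : 1 ≤ a) (hqa : Nat.Coprime q a) {T : Finset ℕ} (hT : T ⊆ sq N q a)
    (h : ∀ n ∈ T, (q * n + a) % d = v) : T.card ≤ Qmax ((N + d - 1) / d) := by
  rcases T.eq_empty_or_nonempty with rfl | hne
  · simp
  · obtain ⟨r, hr, hr'⟩ := common hqd h hne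
    refine (sub_le (by omega) hT hr).trans (le_Qmax ?_)
    apply nontriv
    · nlinarith
    · exact le_trans ha (Nat.le_add_left _ _)
    · exact Nat.Coprime.mul_left (cop_of_mod hr' hv) (cop_add hqa)

/-- class with `q n + a` divisible by `t ^ 2` -/
theorem zero_le {N q a t : ℕ} (ht : 0 < t) (hqd : Nat.Coprime (t ^ 2) q)
    (hq : 2 ≤ q) (ha : 1 ≤ a) (hqa : Nat.Coprime q a) {T : Finset ℕ} (hT : T ⊆ sq N q a)
    (h : ∀ n ∈ T, t ^ 2 ∣ q * n + a) : T.card ≤ Qmax ((N + t ^ 2 - 1) / t ^ 2) := by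
  rcases T.eq_empty_or_nonempty with rfl | hne
  · simp
  · obtain ⟨r, hr, hr'⟩ := common hqd (v := 0) (fun n hn => Nat.mod_eq_zero_of_dvd (h n hn)) hne
    have hdvd : t ^ 2 ∣ q * r + a := Nat.dvd_of_mod_eq_zero hr'
    refine (div_le ht hT hr hdvd).trans (le_Qmax ?_)
    apply nontriv hq
    · have h1 : 0 < q * r + a := by omega
      exact Nat.div_pos (Nat.le_of_dvd h1 hdvd) (by positivity)
    · exact Nat.Coprime.coprime_dvd_right (Nat.div_dvd_of_dvd hdvd) (cop_add hqa)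

theorem split3 {N q a : ℕ} (hn : IsNontrivial q a) (hq : 2 ≤ q) (h3 : ¬ 3 ∣ q) :
    Q N q a ≤ Qmax ((N + 2) / 3) + Qmax ((N + 8) / 9) := by
  classical
  obtain ⟨-, ha, hqa, -⟩ := hn
  have hp : Nat.Prime 3 := Nat.prime_three
  have hc : Nat.Coprime 3 q := (Nat.Prime.coprime_iff_not_dvd hp).2 h3
  rw [Q_eq, ← Finset.card_filter_add_card_filter_not (s := sq N q a) (fun n => ¬ 3 ∣ q * n + a)]
  apply Nat.add_le_add
  · refine (class_le (d := 3) (v := 1) (by norm_num) (by norm_num) hc (by omega) ha hqa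
      (Finset.filter_subset _ _) ?_).trans (Qmax_mono (by omega))
    intro n hn
    rw [Finset.mem_filter, mem_sq] at hn
    obtain ⟨⟨-, y, hy⟩, h1⟩ := hn
    rw [hy] at h1 ⊢
    have h2 : y % 3 = 0 ∨ y % 3 = 1 ∨ y % 3 = 2 := by omega
    rcases h2 with h2 | h2 | h2
    · exact absurd (Dvd.dvd.mul_left (Nat.dvd_of_mod_eq_zero h2) y) h1
    · simp [Nat.mul_mod, h2]
    · simp [Nat.mul_mod, h2]
  · refine (zero_le (t := 3) (by norm_num) (Nat.Coprime.pow_left 2 hc) hq ha hqa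
      (Finset.filter_subset _ _) ?_).trans (Qmax_mono (by norm_num))
    intro n hn
    rw [Finset.mem_filter, mem_sq, not_not] at hn
    obtain ⟨⟨-, y, hy⟩, h1⟩ := hn
    rw [hy] at h1 ⊢
    have h2 : 3 ∣ y := by
      rcases (Nat.Prime.dvd_mul hp).1 h1 with h | h <;> exact h
    rw [← pow_two]
    exact pow_dvd_pow_of_dvd h2 2

theorem odd_sq_mod {y : ℕ} (h : y % 2 = 1) : y * y % 8 = 1 := by
  have h2 : y % 8 = 1 ∨ y % 8 = 3 ∨ y % 8 = 5 ∨ y % 8 = 7 := by omega
  rcases h2 with h2 | h2 | h2 | h2 <;> simp [Nat.mul_mod, h2]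

theorem split2 {N q a : ℕ} (hn : IsNontrivial q a) (hq : 2 ≤ q) (h2 : ¬ 2 ∣ q) :
    Q N q a ≤ Qmax ((N + 3) / 4) + Qmax ((N + 7) / 8) := by
  classical
  obtain ⟨-, ha, hqa, -⟩ := hn
  have hp : Nat.Prime 2 := Nat.prime_two
  have hc : Nat.Coprime 2 q := (Nat.Prime.coprime_iff_not_dvd hp).2 h2
  rw [Q_eq, ← Finset.card_filter_add_card_filter_not (s := sq N q a) (fun n => 2 ∣ q * n + a)]
  apply Nat.add_le_add
  · refine (zero_le (t := 2) (by norm_num) (Nat.Coprime.pow_left 2 hc) hq ha hqa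
      (Finset.filter_subset _ _) ?_).trans (Qmax_mono (by norm_num))
    intro n hn
    rw [Finset.mem_filter, mem_sq] at hn
    obtain ⟨⟨-, y, hy⟩, h1⟩ := hn
    rw [hy] at h1 ⊢
    have h2 : 2 ∣ y := by
      rcases (Nat.Prime.dvd_mul hp).1 h1 with h | h <;> exact h
    rw [← pow_two]
    exact pow_dvd_pow_of_dvd h2 2
  · refine (class_le (d := 8) (v := 1) (by norm_num) (by norm_num)
      (Nat.Coprime.pow_left 3 hc : Nat.Coprime (2 ^ 3) q) (by omega) ha hqa
      (Finset.filter_subset _ _) ?_).trans (Qmax_mono (by omega))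
    intro n hn
    rw [Finset.mem_filter, mem_sq] at hn
    obtain ⟨⟨-, y, hy⟩, h1⟩ := hn
    rw [hy] at h1 ⊢
    apply odd_sq_mod
    by_contra h3
    exact h1 (Dvd.dvd.mul_left (Nat.dvd_of_mod_eq_zero (by omega)) y)

theorem split_even {N q a : ℕ} (hn : IsNontrivial q a) (h2 : 2 ∣ q) (h8 : ¬ 8 ∣ q) :
    Q N q a ≤ Qmax ((N + 1) / 2) := by
  obtain ⟨hq, ha, hqa, -⟩ := hn
  rw [Q_eq]
  have hsq : ∀ n ∈ sq N q a, (q * n + a) % 8 = 1 := by
    intro n hn
    obtain ⟨-, y, hy⟩ := mem_sq.1 hn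
    rw [hy]
    apply odd_sq_mod
    by_contra h3
    have h4 : 2 ∣ y := Nat.dvd_of_mod_eq_zero (by omega)
    have h5 : 2 ∣ q * n + a := by rw [hy]; exact Dvd.dvd.mul_left h4 y
    have h6 : 2 ∣ a := (Nat.dvd_add_right (Dvd.dvd.mul_right h2 n)).1 h5
    have h7 := Nat.dvd_gcd h2 h6
    rw [hqa] at h7
    omega
  rcases (sq N q a).eq_empty_or_nonempty with h | ⟨n₀, hn₀⟩
  · rw [h]; simp
  · have hr : ∀ n ∈ sq N q a, n % 2 = n₀ % 2 := by
      intro n hn
      by_contra hne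
      have h1 := hsq n hn
      have h3 := hsq n₀ hn₀
      have h4 : (8 : ℤ) ∣ q * ((n : ℤ) - n₀) := by
        have h5 : ((q * n + a : ℕ) : ℤ) % 8 = 1 := by exact_mod_cast h1
        have h6 : ((q * n₀ + a : ℕ) : ℤ) % 8 = 1 := by exact_mod_cast h3
        have h7 : (q : ℤ) * ((n : ℤ) - n₀) = ((q * n + a : ℕ) : ℤ) - ((q * n₀ + a : ℕ) : ℤ) := by
          push_cast
          ring
        rw [h7]
        omega
      have h5 : IsCoprime (8 : ℤ) ((n : ℤ) - n₀) := by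
        have h6 : IsCoprime (2 : ℤ) ((n : ℤ) - n₀) := by
          rw [Int.prime_two.coprime_iff_not_dvd]
          omega
        have h7 := h6.pow_left (m := 3)
        norm_num at h7
        exact h7
      have h6 : (8 : ℤ) ∣ q := h5.dvd_of_dvd_mul_right h4
      exact h8 (by exact_mod_cast h6)
    refine (sub_le (by norm_num) (Finset.Subset.refl _) hr).trans (le_Qmax ?_)
    have h9 : (q * (n₀ % 2) + a) % 2 = 1 := by
      have h1 : a % 2 = 1 := by
        by_contra h3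
        have h6 : 2 ∣ a := Nat.dvd_of_mod_eq_zero (by omega)
        have h7 := Nat.dvd_gcd h2 h6
        rw [hqa] at h7
        omega
      obtain ⟨k, hk⟩ := h2
      rw [hk, mul_assoc]
      omega
    apply nontriv (by omega)
    · exact le_trans ha (Nat.le_add_left _ _)
    · exact Nat.Coprime.mul_left (cop_of_mod h9 (by norm_num)) (cop_add hqa)

end Pool.Agent.W8ef934h4
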