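import Mathlib
import Pool.Agent.W_8ef934_h4.Base

/-!
MP_8ef934_nt: the squares of the progression `24 n + 1` (helper4).
-/

set_option autoImplicit false
open Necdea073

namespace Pool.Agent.W8ef934h4

/-- the positive integers coprime to 6 -/
def xx (i : ℕ) : ℕ := if i % 2 = 0 then 3 * i + 1 else 3 * i + 2

/-- the generalized pentagonal numbers in increasing order -/
def gg (i : ℕ) : ℕ := (xx i ^ 2 - 1) / 24

theorem xx_ge (i : ℕ) : 3 * i + 1 ≤ xx i := by
  unfold xx
  split_ifs <;> omega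

theorem xx_le (i : ℕ) : xx i ≤ 3 * i + 2 := by
  unfold xx
  split_ifs <;> omega

theorem sq_mod24 {y : ℕ} (h2 : y % 2 = 1) (h3 : y % 3 ≠ 0) : y ^ 2 % 24 = 1 := by
  have h : y % 24 = 1 ∨ y % 24 = 5 ∨ y % 24 = 7 ∨ y % 24 = 11 ∨ y % 24 = 13 ∨ y % 24 = 17 ∨
      y % 24 = 19 ∨ y % 24 = 23 := by omega
  rcases h with h | h | h | h | h | h | h | h <;> simp [Nat.pow_mod, h]

theorem xx_mod (i : ℕ) : xx i % 2 = 1 ∧ xx i % 3 ≠ 0 := by
  unfold xx
  split_ifs <;> omega

theorem gg_spec (i : ℕ) : 24 * gg i + 1 = xx i ^ 2 := by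
  have h := sq_mod24 (xx_mod i).1 (xx_mod i).2
  unfold gg
  omega

theorem gg_add (i t : ℕ) : gg i + gg t ≤ gg (i + t) := by
  have h1 := gg_spec i
  have h2 := gg_spec t
  have h3 := gg_spec (i + t)
  have key : xx i ^ 2 + xx t ^ 2 ≤ xx (i + t) ^ 2 + 1 := by
    rcases Nat.even_or_odd' i with ⟨b, rfl | rfl⟩ <;> rcases Nat.even_or_odd' t with ⟨c, rfl | rfl⟩
    · have e1 : xx (2 * b) = 6 * b + 1 := by unfold xx; split_ifs <;> omega
      have e2 : xx (2 * c) = 6 * c + 1 := by unfold xx; split_ifs <;> omega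
      have e3 : xx (2 * b + 2 * c) = 6 * b + 6 * c + 1 := by unfold xx; split_ifs <;> omega
      rw [e1, e2, e3]
      nlinarith [Nat.zero_le (b * c)]
    · have e1 : xx (2 * b) = 6 * b + 1 := by unfold xx; split_ifs <;> omega
      have e2 : xx (2 * c + 1) = 6 * c + 5 := by unfold xx; split_ifs <;> omega
      have e3 : xx (2 * b + (2 * c + 1)) = 6 * b + 6 * c + 5 := by unfold xx; split_ifs <;> omega
      rw [e1, e2, e3]
      nlinarith [Nat.zero_le (b * c)]
    · have e1 : xx (2 * b + 1) = 6 * b + 5 := by unfold xx; split_ifs <;> omega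
      have e2 : xx (2 * c) = 6 * c + 1 := by unfold xx; split_ifs <;> omega
      have e3 : xx (2 * b + 1 + 2 * c) = 6 * b + 6 * c + 5 := by unfold xx; split_ifs <;> omega
      rw [e1, e2, e3]
      nlinarith [Nat.zero_le (b * c)]
    · have e1 : xx (2 * b + 1) = 6 * b + 5 := by unfold xx; split_ifs <;> omega
      have e2 : xx (2 * c + 1) = 6 * c + 5 := by unfold xx; split_ifs <;> omega
      have e3 : xx (2 * b + 1 + (2 * c + 1)) = 6 * b + 6 * c + 7 := by
        unfold xx; split_ifs <;> omega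
      rw [e1, e2, e3]
      nlinarith [Nat.zero_le (b * c)]
  omega

theorem gg_lt_succ (i : ℕ) : gg i < gg (i + 1) := by
  have h1 := gg_spec i
  have h2 := gg_spec (i + 1)
  have h3 : xx i < xx (i + 1) := by
    unfold xx
    split_ifs <;> omega
  have h4 : xx i ^ 2 < xx (i + 1) ^ 2 := Nat.pow_lt_pow_left h3 (by norm_num)
  omega

theorem gg_strict : StrictMono gg := strictMono_nat_of_lt_succ gg_lt_succ

theorem isSquare_gg (i : ℕ) : IsSquare (24 * gg i + 1) := ⟨xx i, by rw [gg_spec, pow_two]⟩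

theorem eq_gg {n y : ℕ} (h : 24 * n + 1 = y ^ 2) : n = gg (y / 3) := by
  have h2 : y % 2 = 1 := by
    by_contra h2
    have h3 : y % 2 = 0 := by omega
    have h4 : y ^ 2 % 2 = 0 := by simp [Nat.pow_mod, h3]
    omega
  have h3 : y % 3 ≠ 0 := by
    intro h3
    have h4 : y ^ 2 % 3 = 0 := by simp [Nat.pow_mod, h3]
    omega
  have h4 : xx (y / 3) = y := by
    unfold xx
    split_ifs <;> omega
  have h5 := gg_spec (y / 3)
  rw [h4, ← h] at h5
  omega

theorem isSquare_iff (n : ℕ) : IsSquare (24 * n + 1) ↔ ∃ i, n = gg i := by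
  constructor
  · rintro ⟨y, hy⟩
    exact ⟨y / 3, eq_gg (by rw [hy, pow_two])⟩
  · rintro ⟨i, rfl⟩
    exact isSquare_gg i

theorem F_le {M t : ℕ} (h : M ≤ gg t) : Q M 24 1 ≤ t := by
  rw [Q_eq]
  have h1 : sq M 24 1 ⊆ (Finset.range t).image gg := by
    intro n hn
    rw [mem_sq] at hn
    obtain ⟨i, rfl⟩ := (isSquare_iff n).1 hn.2
    rw [Finset.mem_image]
    refine ⟨i, ?_, rfl⟩
    rw [Finset.mem_range]
    exact gg_strict.lt_iff_lt.1 (lt_of_lt_of_le hn.1 h)
  calc (sq M 24 1).card ≤ ((Finset.range t).image gg).card := Finset.card_le_card h1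
    _ ≤ (Finset.range t).card := Finset.card_image_le
    _ = t := Finset.card_range t

theorem le_F {M t : ℕ} (h : gg t < M) : t + 1 ≤ Q M 24 1 := by
  rw [Q_eq]
  have h1 : (Finset.range (t + 1)).image gg ⊆ sq M 24 1 := by
    intro n hn
    rw [Finset.mem_image] at hn
    obtain ⟨i, hi, rfl⟩ := hn
    rw [Finset.mem_range] at hi
    rw [mem_sq]
    exact ⟨lt_of_le_of_lt (gg_strict.monotone (by omega)) h, isSquare_gg i⟩
  calc t + 1 = (Finset.range (t + 1)).card := (Finset.card_range _).symm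
    _ = ((Finset.range (t + 1)).image gg).card :=
        (Finset.card_image_of_injective _ gg_strict.injective).symm
    _ ≤ (sq M 24 1).card := Finset.card_le_card h1

theorem F_gg (j : ℕ) : Q (gg j + 1) 24 1 = j + 1 :=
  le_antisymm (F_le (gg_lt_succ j)) (le_F (Nat.lt_succ_self _))

theorem F_pos {M : ℕ} (h : 1 ≤ M) : 1 ≤ Q M 24 1 := by
  have h0 : gg 0 = 0 := rfl
  exact le_F (t := 0) (by omega)

theorem gg_F {M : ℕ} (h : 1 ≤ M) : gg (Q M 24 1 - 1) < M := by
  by_contra h1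
  have h2 := F_le (not_lt.1 h1)
  have h3 := F_pos h
  omega

theorem le_gg_F (M : ℕ) : M ≤ gg (Q M 24 1) := by
  by_contra h1
  have h2 := le_F (not_le.1 h1)
  omega

/-- the pentagonal condition of the problem -/
theorem pent_iff (N : ℕ) :
    (∃ k : ℤ, (N : ℤ) = k * (3 * k - 1) / 2 + 1) ↔ ∃ j, N = gg j + 1 := by
  constructor
  · rintro ⟨k, hk⟩
    have h1 : (2 : ℤ) ∣ k * (3 * k - 1) := by
      rcases Int.even_or_odd' k with ⟨m, rfl | rfl⟩
      · exact ⟨m * (3 * (2 * m) - 1), by ring⟩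
      · exact ⟨(2 * m + 1) * (3 * m + 1), by ring⟩
    have h0 : 0 ≤ k * (3 * k - 1) := by
      rcases le_or_gt k 0 with h | h
      · nlinarith
      · nlinarith
    obtain ⟨c, hc⟩ := h1
    rw [hc, Int.mul_ediv_cancel_left c (by norm_num)] at hk
    have hN : 1 ≤ N := by
      have : (1 : ℤ) ≤ N := by rw [hk]; omega
      exact_mod_cast this
    obtain ⟨n, rfl⟩ : ∃ n, N = n + 1 := ⟨N - 1, by omega⟩
    have h2 : ((24 * n + 1 : ℕ) : ℤ) = (6 * k - 1) ^ 2 := by
      push_cast at hk ⊢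
      have : (n : ℤ) = c := by linarith
      rw [this]
      linear_combination (-12) * hc
    have h3 : 24 * n + 1 = (6 * k - 1).natAbs ^ 2 := by
      have h4 : (((6 * k - 1).natAbs ^ 2 : ℕ) : ℤ) = (6 * k - 1) ^ 2 := by
        push_cast
        exact sq_abs _
      rw [← h4] at h2
      exact_mod_cast h2
    exact ⟨_, by rw [← eq_gg h3]⟩
  · rintro ⟨j, rfl⟩
    have h := gg_spec j
    rcases Nat.even_or_odd' j with ⟨m, rfl | rfl⟩
    · have e1 : xx (2 * m) = 6 * m + 1 := by unfold xx; split_ifs <;> omega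
      rw [e1] at h
      refine ⟨-(m : ℤ), ?_⟩
      have h2 : -(m : ℤ) * (3 * -(m : ℤ) - 1) = 2 * (gg (2 * m) : ℤ) := by
        have h3 : (24 * (gg (2 * m) : ℤ) + 1) = (6 * m + 1) ^ 2 := by exact_mod_cast h
        linarith
      rw [h2, Int.mul_ediv_cancel_left _ (by norm_num)]
      push_cast
      ring
    · have e1 : xx (2 * m + 1) = 6 * m + 5 := by unfold xx; split_ifs <;> omega
      rw [e1] at h
      refine ⟨(m : ℤ) + 1, ?_⟩
      have h2 : ((m : ℤ) + 1) * (3 * ((m : ℤ) + 1) - 1) = 2 * (gg (2 * m + 1) : ℤ) := by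
        have h3 : (24 * (gg (2 * m + 1) : ℤ) + 1) = (6 * m + 5) ^ 2 := by exact_mod_cast h
        linarith
      rw [h2, Int.mul_ediv_cancel_left _ (by norm_num)]
      push_cast
      ring

end Pool.Agent.W8ef934h4
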