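import Mathlib
import Pool.Agent.W_8ef934_h4.Pent

/-!
MP_8ef934_nt: the differences 24 and 1 (helper4).
-/

set_option autoImplicit false
open Necdea073

namespace Pool.Agent.W8ef934h4

theorem F24_le (M a : ℕ) (h : Nat.Coprime 24 a) : Q M 24 a ≤ Q M 24 1 := by
  classical
  rcases (sq M 24 a).eq_empty_or_nonempty with he | ⟨n₀, hn₀⟩
  · rw [Q_eq, he]; simp
  have ha2 : a % 2 = 1 := by
    by_contra h2
    have h3 : 2 ∣ a := Nat.dvd_of_mod_eq_zero (by omega)
    have h4 := Nat.dvd_gcd (show 2 ∣ 24 by norm_num) h3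
    rw [h] at h4
    omega
  have ha3 : a % 3 ≠ 0 := by
    intro h2
    have h3 : 3 ∣ a := Nat.dvd_of_mod_eq_zero h2
    have h4 := Nat.dvd_gcd (show 3 ∣ 24 by norm_num) h3
    rw [h] at h4
    omega
  have ha : a % 24 = 1 := by
    obtain ⟨-, y, hy⟩ := mem_sq.1 hn₀
    rw [← pow_two] at hy
    have h2 : y % 2 = 1 := by
      by_contra h2
      have h3 : y % 2 = 0 := by omega
      have h4 : y ^ 2 % 2 = 0 := by simp [Nat.pow_mod, h3]
      omega
    have h3 : y % 3 ≠ 0 := by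
      intro h3
      have h4 : y ^ 2 % 3 = 0 := by simp [Nat.pow_mod, h3]
      omega
    have h4 := sq_mod24 h2 h3
    omega
  obtain ⟨s, rfl⟩ : ∃ s, a = 24 * s + 1 := ⟨a / 24, by omega⟩
  have hidx : ∀ n ∈ sq M 24 (24 * s + 1), ∃ i, n + s = gg i := by
    intro n hn
    obtain ⟨-, hy⟩ := mem_sq.1 hn
    have h1 : 24 * n + (24 * s + 1) = 24 * (n + s) + 1 := by ring
    rw [h1] at hy
    exact (isSquare_iff _).1 hy
  choose! f hf using hidx
  have hinj : Set.InjOn f (sq M 24 (24 * s + 1) : Set ℕ) := by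
    intro x hx y hy hxy
    have h1 := hf x hx
    have h2 := hf y hy
    rw [hxy] at h1
    omega
  set I := (sq M 24 (24 * s + 1)).image f with hI
  have hIne : I.Nonempty := ⟨f n₀, Finset.mem_image_of_mem f hn₀⟩
  have hcard : (sq M 24 (24 * s + 1)).card = I.card := by
    rw [hI, Finset.card_image_of_injOn hinj]
  have hmin := I.min'_mem hIne
  have hmax := I.max'_mem hIne
  set u := I.min' hIne with hu
  set v := I.max' hIne with hv
  have hsub : I ⊆ Finset.Icc u v := by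
    intro i hi
    rw [Finset.mem_Icc]
    exact ⟨Finset.min'_le I i hi, Finset.le_max' I i hi⟩
  have h1 : I.card ≤ v + 1 - u := by
    calc I.card ≤ (Finset.Icc u v).card := Finset.card_le_card hsub
      _ = v + 1 - u := Nat.card_Icc u v
  have huv : u ≤ v := Finset.min'_le I v hmax
  rw [hI, Finset.mem_image] at hmin hmax
  obtain ⟨n₁, hn₁, hn₁'⟩ := hmin
  obtain ⟨n₂, hn₂, hn₂'⟩ := hmax
  have e1 := hf n₁ hn₁
  have e2 := hf n₂ hn₂
  rw [hn₁'] at e1
  rw [hn₂'] at e2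
  have e3 := (mem_sq.1 hn₂).1
  have e4 := gg_add u (v - u)
  rw [Nat.add_sub_cancel' huv] at e4
  have e5 : gg (v - u) < M := by omega
  have e6 := le_F e5
  rw [Q_eq, hcard]
  omega

/-- squares among `N` consecutive integers -/
theorem F1_le (N a : ℕ) (hN : 1 ≤ N) : (Q N 1 a - 1) ^ 2 ≤ N - 1 := by
  classical
  rcases (sq N 1 a).eq_empty_or_nonempty with he | ⟨n₀, hn₀⟩
  · rw [Q_eq, he]; simp
  have hidx : ∀ n ∈ sq N 1 a, ∃ y, 1 * n + a = y * y := by
    intro n hn
    obtain ⟨-, y, hy⟩ := mem_sq.1 hn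
    exact ⟨y, hy⟩
  choose! f hf using hidx
  have hinj : Set.InjOn f (sq N 1 a : Set ℕ) := by
    intro x hx y hy hxy
    have h1 := hf x hx
    have h2 := hf y hy
    rw [hxy] at h1
    omega
  set I := (sq N 1 a).image f with hI
  have hIne : I.Nonempty := ⟨f n₀, Finset.mem_image_of_mem f hn₀⟩
  have hcard : (sq N 1 a).card = I.card := by
    rw [hI, Finset.card_image_of_injOn hinj]
  have hmin := I.min'_mem hIne
  have hmax := I.max'_mem hIne
  set u := I.min' hIne with hu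
  set v := I.max' hIne with hv
  have hsub : I ⊆ Finset.Icc u v := by
    intro i hi
    rw [Finset.mem_Icc]
    exact ⟨Finset.min'_le I i hi, Finset.le_max' I i hi⟩
  have h1 : I.card ≤ v + 1 - u := by
    calc I.card ≤ (Finset.Icc u v).card := Finset.card_le_card hsub
      _ = v + 1 - u := Nat.card_Icc u v
  have huv : u ≤ v := Finset.min'_le I v hmax
  rw [hI, Finset.mem_image] at hmin hmax
  obtain ⟨n₁, hn₁, hn₁'⟩ := hmin
  obtain ⟨n₂, hn₂, hn₂'⟩ := hmax
  have e1 := hf n₁ hn₁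
  have e2 := hf n₂ hn₂
  rw [hn₁'] at e1
  rw [hn₂'] at e2
  have e3 := (mem_sq.1 hn₂).1
  obtain ⟨w, hw⟩ : ∃ w, v = u + w := ⟨v - u, by omega⟩
  have e4 : w ^ 2 ≤ N - 1 := by
    have e5 : v * v ≤ u * u + (N - 1) := by omega
    rw [hw] at e5
    nlinarith
  rw [Q_eq, hcard]
  calc (I.card - 1) ^ 2 ≤ w ^ 2 := Nat.pow_le_pow_left (by omega) 2
    _ ≤ N - 1 := e4

end Pool.Agent.W8ef934h4
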