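import Mathlib
import Pool.Agent.W_8ef934_h4.Win
import Pool.Agent.W_8ef934_h4.Split

/-!
MP_8ef934_nt: a least counterexample has a difference which is a multiple of 24 (helper4).
-/

set_option autoImplicit false
open Necdea073

namespace Pool.Agent.W8ef934h4

/-- uniqueness of the extremal difference for `M` -/
def Uniq (M : ℕ) : Prop := ∀ q a, IsNontrivial q a → Q M q a = Qmax M → q = 24

theorem cop24 {a : ℕ} (h : IsNontrivial 24 a) : Nat.Coprime 24 a := h.2.2.1

theorem Qmax_gg {j : ℕ} (h : Uniq (gg j + 1)) : Qmax (gg j + 1) = j + 1 := by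
  obtain ⟨q, a, h1, h2⟩ := exists_Qmax (gg j + 1)
  have h3 := h q a h1 h2
  subst h3
  apply le_antisymm
  · rw [← h2, ← F_gg j]
    exact F24_le _ _ (cop24 h1)
  · rw [← F_gg j]
    exact le_Qmax nontriv_24

theorem gg3 : gg 3 = 5 := by decide
theorem gg4 : gg 4 = 7 := by decide

theorem small {j M : ℕ} (h : ∀ i, 4 ≤ i → i < j → Uniq (gg i + 1)) (h6 : 6 ≤ M)
    (hj : 1 ≤ j) (hM : M ≤ gg (j - 1)) : Qmax M = Q M 24 1 := by
  apply le_antisymm _ (le_Qmax nontriv_24)
  obtain ⟨q, a, h1, h2⟩ := exists_Qmax M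
  rw [← h2]
  by_contra hlt
  push Not at hlt
  set t := Q M 24 1 with ht
  have h3 : M ≤ gg t := le_gg_F M
  have h4 : 3 + 1 ≤ t := by
    rw [ht]
    exact le_F (by rw [gg3]; omega)
  have h5 : t ≤ j - 1 := F_le hM
  have h6 := h t (by omega) (by omega)
  have h7 := Qmax_gg h6
  have h8 : Q M q a ≤ Q (gg t + 1) q a := Q_mono (by omega) q a
  have h9 : Q (gg t + 1) q a ≤ Qmax (gg t + 1) := le_Qmax h1
  have h10 := h6 q a h1 (by omega)
  subst h10
  have h11 := F24_le M a (cop24 h1)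
  omega

theorem xx_37 {j : ℕ} (hj : 12 ≤ j) : 37 ≤ xx j := (by omega : 37 ≤ 3 * j + 1).trans (xx_ge j)

/-- numerical: `X = xx j`, `A`, `B` two smaller values -/
theorem num3 {X A B : ℕ} (hX : 37 ≤ X) (h1 : 3 * A ^ 2 ≤ X ^ 2 + 2) (h2 : 9 * B ^ 2 ≤ X ^ 2 + 8) :
    A + B + 3 < X := by
  have h3 : 1000 * A ≤ 578 * X := by
    by_contra h
    push Not at h
    nlinarith
  have h4 : 10000 * B ≤ 3344 * X := by
    by_contra h
    push Not at h
    nlinarith
  omega

theorem num2 {X A B : ℕ} (hX : 37 ≤ X) (h1 : 4 * A ^ 2 ≤ X ^ 2 + 3) (h2 : 8 * B ^ 2 ≤ X ^ 2 + 7) :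
    A + B + 3 < X := by
  have h3 : 1000 * A ≤ 502 * X := by
    by_contra h
    push Not at h
    nlinarith
  have h4 : 1000 * B ≤ 356 * X := by
    by_contra h
    push Not at h
    nlinarith
  omega

theorem bound_div {j d : ℕ} (hd : 1 ≤ d) (h : 1 ≤ (gg j + 1 + d - 1) / d) :
    d * xx (Q ((gg j + 1 + d - 1) / d) 24 1 - 1) ^ 2 ≤ xx j ^ 2 + (d - 1) := by
  have h1 := gg_F h
  set U := Q ((gg j + 1 + d - 1) / d) 24 1 - 1 with hU
  have h2 : d * ((gg j + 1 + d - 1) / d) ≤ gg j + 1 + d - 1 := Nat.mul_div_le _ _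
  have h3 : d * (gg U + 1) ≤ d * ((gg j + 1 + d - 1) / d) := Nat.mul_le_mul_left d h1
  have h4 : d * gg U ≤ gg j := by
    rw [mul_add, mul_one] at h3
    omega
  have h5 := gg_spec U
  have h6 := gg_spec j
  have h7 : d * xx U ^ 2 = 24 * (d * gg U) + d := by
    rw [← h5]
    ring
  omega

theorem half {j : ℕ} (hj : 12 ≤ j) : (gg j + 2) / 2 ≤ gg (j - 1) := by
  have h1 := gg_spec j
  have h2 := gg_spec (j - 1)
  have h3 := xx_37 hj
  have h4 : xx j ≤ xx (j - 1) + 4 := by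
    unfold xx
    split_ifs <;> omega
  obtain ⟨y, hy⟩ : ∃ y, xx j = y + 4 := ⟨xx j - 4, by omega⟩
  have h5 : y ^ 2 ≤ xx (j - 1) ^ 2 := Nat.pow_le_pow_left (by omega) 2
  rw [hy] at h1
  have h6 : 33 ≤ y := by omega
  have h7 : gg j + 1 ≤ 2 * gg (j - 1) := by nlinarith
  omega

theorem main_A {j q a : ℕ} (hj : 12 ≤ j) (h : ∀ i, 4 ≤ i → i < j → Uniq (gg i + 1))
    (hn : IsNontrivial q a) (hge : j + 1 ≤ Q (gg j + 1) q a) : 24 ∣ q ∧ a % 24 = 1 := by
  have hX := xx_37 hj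
  have hspec := gg_spec j
  have hg : 57 ≤ gg j := by nlinarith
  have hhalf := half hj
  have hxle := xx_le j
  have hsm : ∀ M, 6 ≤ M → M ≤ (gg j + 2) / 2 → Qmax M = Q M 24 1 := fun M h6 hM =>
    small h h6 (by omega) (by omega)
  have hq2 : 2 ≤ q := by
    by_contra hlt
    have h1 : q = 1 := by
      have := hn.1
      omega
    subst h1
    have h2 := F1_le (gg j + 1) a (by omega)
    have h3 : j ^ 2 ≤ (Q (gg j + 1) 1 a - 1) ^ 2 := Nat.pow_le_pow_left (by omega) 2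
    have h4 : j ^ 2 ≤ gg j := by omega
    have h5 : xx j ^ 2 ≤ (3 * j + 2) ^ 2 := Nat.pow_le_pow_left hxle 2
    nlinarith
  have h3 : 3 ∣ q := by
    by_contra h3
    have h1 := split3 (N := gg j + 1) hn hq2 h3
    have e1 : (gg j + 1 + 2) / 3 = (gg j + 1 + 3 - 1) / 3 := by omega
    have e2 : (gg j + 1 + 8) / 9 = (gg j + 1 + 9 - 1) / 9 := by omega
    rw [e1, e2, hsm _ (by omega) (by omega), hsm _ (by omega) (by omega)] at h1
    have b1 := bound_div (j := j) (d := 3) (by norm_num) (by omega)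
    have b2 := bound_div (j := j) (d := 9) (by norm_num) (by omega)
    set u := Q ((gg j + 1 + 3 - 1) / 3) 24 1 with hu
    set v := Q ((gg j + 1 + 9 - 1) / 9) 24 1 with hv
    have b3 := num3 hX b1 b2
    have b4 := xx_ge (u - 1)
    have b5 := xx_ge (v - 1)
    omega
  have h8 : 8 ∣ q := by
    by_contra h8
    rcases Nat.lt_or_ge 0 (q % 2) with h2 | h2
    · have h2' : ¬ 2 ∣ q := by omega
      have h1 := split2 (N := gg j + 1) hn hq2 h2'
      have e1 : (gg j + 1 + 3) / 4 = (gg j + 1 + 4 - 1) / 4 := by omega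
      have e2 : (gg j + 1 + 7) / 8 = (gg j + 1 + 8 - 1) / 8 := by omega
      rw [e1, e2, hsm _ (by omega) (by omega), hsm _ (by omega) (by omega)] at h1
      have b1 := bound_div (j := j) (d := 4) (by norm_num) (by omega)
      have b2 := bound_div (j := j) (d := 8) (by norm_num) (by omega)
      set u := Q ((gg j + 1 + 4 - 1) / 4) 24 1 with hu
      set v := Q ((gg j + 1 + 8 - 1) / 8) 24 1 with hv
      have b3 := num2 hX b1 b2
      have b4 := xx_ge (u - 1)
      have b5 := xx_ge (v - 1)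
      omega
    · have h2' : 2 ∣ q := by omega
      have h1 := split_even (N := gg j + 1) hn h2' h8
      have h4 : Qmax ((gg j + 1 + 1) / 2) ≤ j := by
        rw [hsm _ (by omega) (by omega)]
        apply F_le
        have h5 := gg_strict.monotone (show j - 1 ≤ j by omega)
        omega
      omega
  have h24 : 24 ∣ q := by
    have : Nat.Coprime 3 8 := by norm_num
    have h1 := this.mul_dvd_of_dvd_of_dvd h3 h8
    exact h1
  refine ⟨h24, ?_⟩
  have hne : (sq (gg j + 1) q a).Nonempty := by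
    rw [← Finset.card_pos, ← Q_eq]
    omega
  obtain ⟨n, hn'⟩ := hne
  obtain ⟨-, y, hy⟩ := mem_sq.1 hn'
  rw [← pow_two] at hy
  obtain ⟨c, rfl⟩ := h24
  have hc := hn.2.2.1
  have ha2 : a % 2 = 1 := by
    by_contra h2
    have h4 := Nat.dvd_gcd (show 2 ∣ 24 * c from Dvd.dvd.mul_right (by norm_num) c)
      (Nat.dvd_of_mod_eq_zero (show a % 2 = 0 by omega))
    rw [hc] at h4
    omega
  have ha3 : a % 3 ≠ 0 := by
    intro h2
    have h4 := Nat.dvd_gcd (show 3 ∣ 24 * c from Dvd.dvd.mul_right (by norm_num) c)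
      (Nat.dvd_of_mod_eq_zero h2)
    rw [hc] at h4
    omega
  rw [mul_assoc] at hy
  have h2 : y % 2 = 1 := by
    by_contra h2
    have h3 : y % 2 = 0 := by omega
    have h4 : y ^ 2 % 2 = 0 := by simp [Nat.pow_mod, h3]
    omega
  have h3 : y % 3 ≠ 0 := by
    intro h3
    have h4 : y ^ 2 % 3 = 0 := by simp [Nat.pow_mod, h3]
    omega
  have h4 := sq_mod24 h2 h3
  omega

end Pool.Agent.W8ef934h4
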