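import Mathlib
import Pool.Agent.W_8ef934_h4.Win
import Pool.Agent.W_8ef934_h4.Split

/-!
MP_8ef934_nt: infinitely many lengths for which only multiples of 24 are (nearly) extremal (helper4).
-/

set_option autoImplicit false
open Necdea073

namespace Pool.Agent.W8ef934h4

theorem decay {f : ℕ → ℕ} (hf : ∀ M, f M ≤ M) {M₁ : ℕ} (hM₁ : 1 ≤ M₁) {l : ℝ} (hl0 : 0 ≤ l)
    (hl1 : l < 1)
    (hR : ∀ M ≥ M₁, ∀ K : ℝ, 0 ≤ K →
      (∀ M', M ≤ 10 * M' → M' < M → (f M' : ℝ) ≤ K * Real.sqrt M') →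
      (f M : ℝ) ≤ l * K * Real.sqrt M) (η : ℝ) (hη : 0 < η) :
    ∃ M₀, ∀ M ≥ M₀, (f M : ℝ) ≤ η * Real.sqrt M := by
  set K₀ : ℝ := Real.sqrt (10 * M₁) with hK₀
  have hK₀0 : 0 ≤ K₀ := Real.sqrt_nonneg _
  have base : ∀ M, 1 ≤ M → (f M : ℝ) ≤ K₀ * Real.sqrt M := by
    intro M
    induction M using Nat.strong_induction_on with
    | _ M ih =>
      intro hM
      rcases le_or_gt M (10 * M₁) with h | h
      · have h1 : (M : ℝ) ≤ 10 * M₁ := by exact_mod_cast h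
        have h2 : Real.sqrt M ≤ K₀ := Real.sqrt_le_sqrt h1
        have h3 : (f M : ℝ) ≤ M := by exact_mod_cast hf M
        calc (f M : ℝ) ≤ M := h3
          _ = Real.sqrt M * Real.sqrt M := (Real.mul_self_sqrt (Nat.cast_nonneg M)).symm
          _ ≤ K₀ * Real.sqrt M := mul_le_mul_of_nonneg_right h2 (Real.sqrt_nonneg _)
      · have h1 := hR M (by omega) K₀ hK₀0 (fun M' h2 h3 => ih M' h3 (by omega))
        have h2 : 0 ≤ K₀ * Real.sqrt M := mul_nonneg hK₀0 (Real.sqrt_nonneg _)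
        calc (f M : ℝ) ≤ l * K₀ * Real.sqrt M := h1
          _ = l * (K₀ * Real.sqrt M) := by ring
          _ ≤ 1 * (K₀ * Real.sqrt M) := mul_le_mul_of_nonneg_right hl1.le h2
          _ = K₀ * Real.sqrt M := one_mul _
  have iter : ∀ n : ℕ, ∃ M₀, 1 ≤ M₀ ∧ ∀ M ≥ M₀, (f M : ℝ) ≤ l ^ n * K₀ * Real.sqrt M := by
    intro n
    induction n with
    | zero => exact ⟨1, le_rfl, fun M hM => by simpa using base M hM⟩
    | succ n ih =>
      obtain ⟨M₀, h0, h1⟩ := ih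
      refine ⟨10 * (M₀ + M₁), by omega, fun M hM => ?_⟩
      have h2 := hR M (by omega) (l ^ n * K₀) (by positivity)
        (fun M' h3 h4 => h1 M' (by omega))
      calc (f M : ℝ) ≤ l * (l ^ n * K₀) * Real.sqrt M := h2
        _ = l ^ (n + 1) * K₀ * Real.sqrt M := by ring
  have hK : 0 < K₀ + 1 := by linarith
  obtain ⟨n, hn⟩ := exists_pow_lt_of_lt_one (show 0 < η / (K₀ + 1) by positivity) hl1
  obtain ⟨M₀, -, h1⟩ := iter n
  refine ⟨M₀, fun M hM => (h1 M hM).trans ?_⟩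
  apply mul_le_mul_of_nonneg_right _ (Real.sqrt_nonneg _)
  rw [lt_div_iff₀ hK] at hn
  have h2 : 0 ≤ l ^ n := by positivity
  nlinarith

theorem next_gg (ε : ℝ) (hε : 0 < ε) : ∃ M₁ : ℕ, ∀ M ≥ M₁,
    ((gg (Q M 24 1) : ℕ) : ℝ) + 9 ≤ (1 + ε) * M := by
  obtain ⟨M₁, hM₁⟩ := exists_nat_gt (((32 / ε + 15) / 24 + 9) * 2 / ε)
  refine ⟨M₁ + 1, fun M hM => ?_⟩
  have hMr : (M₁ : ℝ) ≤ M := by
    have : M₁ ≤ M := by omega
    exact_mod_cast this
  set j := Q M 24 1 with hj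
  have hjpos : 1 ≤ j := F_pos (by omega)
  have h1 : gg (j - 1) < M := gg_F (by omega)
  have h2 := gg_spec (j - 1)
  have h3 := gg_spec j
  have h4 : xx j ≤ xx (j - 1) + 4 := by
    unfold xx
    split_ifs <;> omega
  set y := xx (j - 1) with hy
  have h5 : (y : ℝ) ^ 2 ≤ 24 * M := by
    have : y ^ 2 ≤ 24 * M := by omega
    exact_mod_cast this
  have h6 : 24 * (gg j : ℝ) + 1 ≤ ((y : ℝ) + 4) ^ 2 := by
    have h7 : xx j ^ 2 ≤ (y + 4) ^ 2 := Nat.pow_le_pow_left h4 2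
    have h8 : 24 * gg j + 1 ≤ (y + 4) ^ 2 := by omega
    exact_mod_cast h8
  have h7 : 8 * (y : ℝ) ≤ ε / 2 * (y : ℝ) ^ 2 + 32 / ε := by
    have h8 : 0 ≤ (ε * (y : ℝ) - 8) ^ 2 := sq_nonneg _
    have h9 : ε / 2 * (y : ℝ) ^ 2 + 32 / ε - 8 * y = (ε * (y : ℝ) - 8) ^ 2 / (2 * ε) := by
      field_simp
      ring
    have h10 : 0 ≤ (ε * (y : ℝ) - 8) ^ 2 / (2 * ε) := by positivity
    linarith
  have h8 : ((32 / ε + 15) / 24 + 9) ≤ ε / 2 * M := by
    have h9 : ((32 / ε + 15) / 24 + 9) * 2 / ε ≤ M := hM₁.le.trans hMr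
    rw [div_le_iff₀ hε] at h9
    linarith
  nlinarith

theorem kappa_ge : (9 : ℝ) / 10 ≤ 1 / 3 + 1 / Real.sqrt 3 := by
  have h1 : Real.sqrt 3 ≤ 30 / 17 := by
    rw [Real.sqrt_le_left (by norm_num)]
    norm_num
  have h2 : 0 < Real.sqrt 3 := Real.sqrt_pos.2 (by norm_num)
  have h3 : (17 : ℝ) / 30 ≤ 1 / Real.sqrt 3 := by
    rw [le_div_iff₀ h2]
    linarith
  linarith

theorem sqrt_div_bound {x e M d s : ℝ} (hx : x ≤ e * M / d) (he : 0 ≤ e)
    (hM : 0 ≤ M) (hs : 1 / Real.sqrt d ≤ s) :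
    Real.sqrt x ≤ s * (Real.sqrt e * Real.sqrt M) := by
  calc Real.sqrt x ≤ Real.sqrt (e * M / d) := Real.sqrt_le_sqrt hx
    _ = Real.sqrt (e * M) / Real.sqrt d := Real.sqrt_div (by positivity) _
    _ = (1 / Real.sqrt d) * (Real.sqrt e * Real.sqrt M) := by rw [Real.sqrt_mul he]; ring
    _ ≤ s * (Real.sqrt e * Real.sqrt M) := mul_le_mul_of_nonneg_right hs (by positivity)

/-- the recursion if every pentagonal length has a nearly extremal difference which is not a multiple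
of 24 -/
theorem recursion (c : ℝ) (hc : 1 / 3 + 1 / Real.sqrt 3 < c) (X : ℕ)
    (hbad : ∀ j, X < gg j + 1 → ∃ q a, IsNontrivial q a ∧ ¬ 24 ∣ q ∧
      c * (Qmax (gg j + 1) : ℝ) < Q (gg j + 1) q a) :
    ∃ l : ℝ, 0 ≤ l ∧ l < 1 ∧ ∃ M₁ : ℕ, 1 ≤ M₁ ∧ ∀ M ≥ M₁, ∀ K : ℝ, 0 ≤ K →
      (∀ M', M ≤ 10 * M' → M' < M → (Qmax M' : ℝ) ≤ K * Real.sqrt M') →
      (Qmax M : ℝ) ≤ l * K * Real.sqrt M := by
  set κ : ℝ := 1 / 3 + 1 / Real.sqrt 3 with hκ
  have hκ9 : (9 : ℝ) / 10 ≤ κ := kappa_ge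
  have hκ0 : 0 < κ := by linarith
  have hc0 : 0 < c := by linarith
  -- choose `e = 1 + ε`
  obtain ⟨e, he1, he2, he3⟩ : ∃ e : ℝ, 1 < e ∧ κ * Real.sqrt e < c ∧ e ≤ 2 := by
    have h1 : 1 < (c / κ) ^ 2 := by
      have : 1 < c / κ := by rwa [lt_div_iff₀ hκ0, one_mul]
      nlinarith
    refine ⟨min 2 ((1 + (c / κ) ^ 2) / 2), ?_, ?_, min_le_left _ _⟩
    · rw [lt_min_iff]
      constructor
      · norm_num
      · linarith
    · have h2 : Real.sqrt (min 2 ((1 + (c / κ) ^ 2) / 2)) < c / κ := by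
        rw [Real.sqrt_lt' (by positivity)]
        calc min 2 ((1 + (c / κ) ^ 2) / 2) ≤ (1 + (c / κ) ^ 2) / 2 := min_le_right _ _
          _ < (c / κ) ^ 2 := by linarith
      rw [lt_div_iff₀ hκ0] at h2
      linarith
  have he0 : 0 ≤ e := by linarith
  refine ⟨κ * Real.sqrt e / c, by positivity, by rwa [div_lt_one hc0], ?_⟩
  obtain ⟨M₁, hM₁⟩ := next_gg (e - 1) (by linarith)
  refine ⟨M₁ + X + 1000, by omega, fun M hM K hK hyp => ?_⟩
  have hnext := hM₁ M (by omega)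
  have hMj := le_gg_F M
  set j := Q M 24 1 with hj
  have he' : 1 + (e - 1) = e := by ring
  rw [he'] at hnext
  have hM0 : (0 : ℝ) ≤ M := Nat.cast_nonneg M
  have hN2 : gg j + 9 ≤ 2 * M := by
    have : ((gg j : ℕ) : ℝ) + 9 ≤ 2 * M := by nlinarith
    exact_mod_cast this
  obtain ⟨q, a, hn, h24, hlt⟩ := hbad j (by omega)
  set N := gg j + 1 with hN
  have hMN : M ≤ N := by omega
  have hmono : (Qmax M : ℝ) ≤ Qmax N := by exact_mod_cast Qmax_mono hMN
  have hNr : (N : ℝ) + 8 ≤ e * M := by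
    rw [hN]
    push_cast
    linarith
  -- the goal follows from a bound for `Q N q a`
  suffices hsuf : (Q N q a : ℝ) ≤ κ * (Real.sqrt e * Real.sqrt M) * K by
    have h1 : c * (Qmax M : ℝ) ≤ κ * (Real.sqrt e * Real.sqrt M) * K := by
      calc c * (Qmax M : ℝ) ≤ c * Qmax N := mul_le_mul_of_nonneg_left hmono hc0.le
        _ ≤ Q N q a := hlt.le
        _ ≤ _ := hsuf
    have h2 : κ * Real.sqrt e / c * K * Real.sqrt M = (κ * (Real.sqrt e * Real.sqrt M) * K) / c := by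
      ring
    rw [h2, le_div_iff₀ hc0]
    linarith
  have hs0 : 0 ≤ Real.sqrt e * Real.sqrt M := by positivity
  have hq2 : 2 ≤ q := by
    by_contra hlt'
    have h1 : q = 1 := by
      have := hn.1
      omega
    subst h1
    exfalso
    have h2 := F1_le N a (by omega)
    have h3 : (Q N 24 1 : ℝ) ≤ Qmax N := by exact_mod_cast le_Qmax nontriv_24
    rw [hN, F_gg j, ← hN] at h3
    push_cast at h3
    have h4 := gg_spec j
    have h5 : xx j ^ 2 ≤ (3 * j + 2) ^ 2 := Nat.pow_le_pow_left (xx_le j) 2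
    have h6 : 24 * (gg j : ℝ) + 1 ≤ (3 * (j : ℝ) + 2) ^ 2 := by
      have : 24 * gg j + 1 ≤ (3 * j + 2) ^ 2 := by omega
      exact_mod_cast this
    have hj5 : (5 : ℝ) ≤ j := by
      by_contra h7
      push Not at h7
      have h8 : (1000 : ℝ) ≤ gg j := by
        have : 1000 ≤ gg j := by omega
        exact_mod_cast this
      have h9 : (0 : ℝ) ≤ j := Nat.cast_nonneg j
      nlinarith
    have h7 : 9 / 10 * ((j : ℝ) + 1) ≤ Q N 1 a := by
      have h8 : c * ((j : ℝ) + 1) ≤ c * Qmax N := mul_le_mul_of_nonneg_left h3 hc0.le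
      have h9 : 9 / 10 * ((j : ℝ) + 1) ≤ c * ((j : ℝ) + 1) :=
        mul_le_mul_of_nonneg_right (by linarith) (by linarith)
      linarith
    have h8 : 1 ≤ Q N 1 a := by
      have : (1 : ℝ) ≤ Q N 1 a := by linarith
      exact_mod_cast this
    have h9 : ((Q N 1 a : ℝ) - 1) ^ 2 ≤ gg j := by
      have h10 : (((Q N 1 a - 1 : ℕ) : ℝ)) ^ 2 ≤ ((N - 1 : ℕ) : ℝ) := by exact_mod_cast h2
      rw [Nat.cast_sub h8] at h10
      have h11 : N - 1 = gg j := by omega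
      rw [h11] at h10
      push_cast at h10
      exact h10
    nlinarith
  have hcast : ∀ d : ℕ, 1 ≤ d → d ≤ 9 → (((N + (d - 1)) / d : ℕ) : ℝ) ≤ e * M / d := by
    intro d hd hd9
    have hd0 : (0 : ℝ) < d := by exact_mod_cast hd
    have h1 : (((N + (d - 1)) / d : ℕ) : ℝ) ≤ ((N + (d - 1) : ℕ) : ℝ) / d := Nat.cast_div_le
    refine h1.trans ?_
    apply div_le_div_of_nonneg_right _ hd0.le
    have h2 : N + (d - 1) ≤ N + 8 := by omega
    have h3 : ((N + (d - 1) : ℕ) : ℝ) ≤ ((N + 8 : ℕ) : ℝ) := by exact_mod_cast h2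
    push_cast at h3 ⊢
    linarith
  have hpiece : ∀ d : ℕ, 2 ≤ d → d ≤ 9 → ∀ s : ℝ, 1 / Real.sqrt d ≤ s →
      (Qmax ((N + (d - 1)) / d) : ℝ) ≤ s * (Real.sqrt e * Real.sqrt M) * K := by
    intro d hd hd9 s hs
    have h1 : M ≤ 10 * ((N + (d - 1)) / d) := by
      have h2 : N ≤ d * ((N + (d - 1)) / d) := by
        have h3 := Nat.div_add_mod (N + (d - 1)) d
        have h4 := Nat.mod_lt (N + (d - 1)) (show 0 < d by omega)
        omega
      have h5 : d * ((N + (d - 1)) / d) ≤ 10 * ((N + (d - 1)) / d) :=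
        Nat.mul_le_mul_right _ (by omega)
      omega
    have h2 : (N + (d - 1)) / d < M := by
      rw [Nat.div_lt_iff_lt_mul (by omega)]
      have h4 : N + 8 ≤ 2 * M := by omega
      rcases Nat.lt_or_ge d 3 with h | h
      · have h5 : d = 2 := by omega
        subst h5
        omega
      · have h5 : M * 3 ≤ M * d := Nat.mul_le_mul_left M h
        omega
    have h3 := hyp _ h1 h2
    have h4 := sqrt_div_bound (hcast d (by omega) hd9) he0 hM0 hs
    calc (Qmax ((N + (d - 1)) / d) : ℝ) ≤ K * Real.sqrt (((N + (d - 1)) / d : ℕ) : ℝ) := h3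
      _ ≤ K * (s * (Real.sqrt e * Real.sqrt M)) := mul_le_mul_of_nonneg_left h4 hK
      _ = s * (Real.sqrt e * Real.sqrt M) * K := by ring
  have hs0K : 0 ≤ Real.sqrt e * Real.sqrt M * K := by positivity
  by_cases h3 : 3 ∣ q
  · have h8 : ¬ 8 ∣ q := by
      intro h8
      have : Nat.Coprime 3 8 := by norm_num
      exact h24 (this.mul_dvd_of_dvd_of_dvd h3 h8)
    by_cases h2 : 2 ∣ q
    · have h1 : (Q N q a : ℝ) ≤ Qmax ((N + (2 - 1)) / 2) := by
        exact_mod_cast split_even (N := N) hn h2 h8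
      have h4 := hpiece 2 (by norm_num) (by norm_num) (9 / 10) (by
        rw [div_le_iff₀ (by positivity)]
        have : (10 : ℝ) / 9 ≤ Real.sqrt ((2 : ℕ) : ℝ) := by
          apply Real.le_sqrt_of_sq_le
          norm_num
        linarith)
      nlinarith
    · have h1 : (Q N q a : ℝ) ≤ Qmax ((N + (4 - 1)) / 4) + Qmax ((N + (8 - 1)) / 8) := by
        exact_mod_cast split2 (N := N) hn hq2 h2
      have h4 := hpiece 4 (by norm_num) (by norm_num) (1 / 2) (by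
        have : Real.sqrt ((4 : ℕ) : ℝ) = 2 := by
          rw [show ((4 : ℕ) : ℝ) = 2 ^ 2 by norm_num]
          exact Real.sqrt_sq (by norm_num)
        rw [this])
      have h5 := hpiece 8 (by norm_num) (by norm_num) (2 / 5) (by
        rw [div_le_iff₀ (by positivity)]
        have : (5 : ℝ) / 2 ≤ Real.sqrt ((8 : ℕ) : ℝ) := by
          apply Real.le_sqrt_of_sq_le
          norm_num
        linarith)
      nlinarith
  · have h1 : (Q N q a : ℝ) ≤ Qmax ((N + (3 - 1)) / 3) + Qmax ((N + (9 - 1)) / 9) := by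
      exact_mod_cast split3 (N := N) hn hq2 h3
    have h4 := hpiece 3 (by norm_num) (by norm_num) (1 / Real.sqrt 3) (by norm_num)
    have h5 := hpiece 9 (by norm_num) (by norm_num) (1 / 3) (by
      have : Real.sqrt ((9 : ℕ) : ℝ) = 3 := by
        rw [show ((9 : ℕ) : ℝ) = 3 ^ 2 by norm_num]
        exact Real.sqrt_sq (by norm_num)
      rw [this])
    calc (Q N q a : ℝ) ≤ Qmax ((N + (3 - 1)) / 3) + Qmax ((N + (9 - 1)) / 9) := h1
      _ ≤ 1 / Real.sqrt 3 * (Real.sqrt e * Real.sqrt M) * K +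
          1 / 3 * (Real.sqrt e * Real.sqrt M) * K := add_le_add h4 h5
      _ = κ * (Real.sqrt e * Real.sqrt M) * K := by rw [hκ]; ring

theorem main_B (c : ℝ) (hc : 1 / 3 + 1 / Real.sqrt 3 < c) (X : ℕ) : ∃ j, X < gg j + 1 ∧
    ∀ q a, IsNontrivial q a → ¬ 24 ∣ q → (Q (gg j + 1) q a : ℝ) ≤ c * (Qmax (gg j + 1) : ℝ) := by
  by_contra hcon
  push Not at hcon
  obtain ⟨l, hl0, hl1, M₁, hM₁, hR⟩ := recursion c hc X (fun j hj => by
    obtain ⟨q, a, h1, h2, h3⟩ := hcon j hj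
    exact ⟨q, a, h1, h2, h3⟩)
  obtain ⟨M₀, hM₀⟩ := decay (f := Qmax) Qmax_le_self hM₁ hl0 hl1 hR (1 / 2) (by norm_num)
  have h1 : M₀ ≤ gg (M₀ + 1) + 1 := by
    have := gg_strict.le_apply (x := M₀ + 1)
    omega
  have h2 := hM₀ _ h1
  set j := M₀ + 1 with hj
  have h3 : ((j : ℝ) + 1) ≤ Qmax (gg j + 1) := by
    have h4 : Q (gg j + 1) 24 1 ≤ Qmax (gg j + 1) := le_Qmax nontriv_24
    rw [F_gg] at h4
    exact_mod_cast h4
  have h4 := gg_spec j
  have h5 : xx j ^ 2 ≤ (3 * j + 2) ^ 2 := Nat.pow_le_pow_left (xx_le j) 2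
  have hj1 : 1 ≤ j := by omega
  have h6 : gg j + 1 ≤ (j + 1) ^ 2 := by nlinarith
  have h7 : Real.sqrt ((gg j + 1 : ℕ) : ℝ) ≤ (j : ℝ) + 1 := by
    apply Real.sqrt_le_iff.2
    constructor
    · positivity
    · exact_mod_cast h6
  have h8 : (0 : ℝ) < (j : ℝ) + 1 := by positivity
  linarith

end Pool.Agent.W8ef934h4
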