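import Mathlib
import Pool.Agent.W_8ef934_h4.Least
import Pool.Agent.W_8ef934_h4.Rec

/-!
MP_8ef934_nt: final forms (helper4).
-/

set_option autoImplicit false
open Necdea073

namespace Pool.Agent.W8ef934h4

/-- generalized pentagonal numbers and squares -/
theorem gp_iff (m : ℕ) : (∃ k : ℤ, (m : ℤ) = k * (3 * k - 1) / 2) ↔ IsSquare (24 * m + 1) := by
  rw [isSquare_iff]
  have h := pent_iff (m + 1)
  constructor
  · rintro ⟨k, hk⟩
    obtain ⟨j, hj⟩ := h.1 ⟨k, by push_cast; rw [hk]⟩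
    exact ⟨j, by omega⟩
  · rintro ⟨j, hj⟩
    obtain ⟨k, hk⟩ := h.2 ⟨j, by omega⟩
    refine ⟨k, ?_⟩
    push_cast at hk
    linarith

theorem count_gp (N r s : ℕ) :
    {n : ℕ | n < N ∧ ∃ k : ℤ, ((r * n + s : ℕ) : ℤ) = k * (3 * k - 1) / 2}.ncard =
      Q N (24 * r) (24 * s + 1) := by
  unfold Q
  congr 1
  ext n
  simp only [Set.mem_ofPred_eq]
  rw [gp_iff]
  have h : 24 * (r * n + s) + 1 = 24 * r * n + (24 * s + 1) := by ring
  rw [h]

theorem gg11 : gg 11 = 51 := by decide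
theorem gg12 : gg 12 = 57 := by decide

theorem j_ge {j : ℕ} (h : 52 < gg j + 1) : 12 ≤ j := by
  by_contra hlt
  have h1 := gg_strict.monotone (show j ≤ 11 by omega)
  rw [gg11] at h1
  omega

theorem gg_ge4 {i : ℕ} (h : 4 ≤ i) : 8 ≤ gg i + 1 := by
  have h1 := gg_strict.monotone h
  rw [gg4] at h1
  omega

theorem mod_of_dvd {N q a : ℕ} (hn : IsNontrivial q a) (h24 : 24 ∣ q) (h : 1 ≤ Q N q a) :
    a % 24 = 1 := by
  have hne : (sq N q a).Nonempty := by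
    rw [← Finset.card_pos, ← Q_eq]
    omega
  obtain ⟨n, hn'⟩ := hne
  obtain ⟨-, y, hy⟩ := mem_sq.1 hn'
  rw [← pow_two] at hy
  obtain ⟨c, rfl⟩ := h24
  have hc := hn.2.2.1
  have ha2 : a % 2 = 1 := by
    by_contra h2
    have h4 := Nat.dvd_gcd (show 2 ∣ 24 * c from Dvd.dvd.mul_right (by norm_num) c)
      (Nat.dvd_of_mod_eq_zero (show a % 2 = 0 by omega))
    rw [hc] at h4
    omega
  have ha3 : a % 3 ≠ 0 := by
    intro h2
    have h4 := Nat.dvd_gcd (show 3 ∣ 24 * c from Dvd.dvd.mul_right (by norm_num) c)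
      (Nat.dvd_of_mod_eq_zero h2)
    rw [hc] at h4
    omega
  rw [mul_assoc] at hy
  have h2 : y % 2 = 1 := by
    by_contra h2
    have h3 : y % 2 = 0 := by omega
    have h4 : y ^ 2 % 2 = 0 := by simp [Nat.pow_mod, h3]
    omega
  have h3 : y % 3 ≠ 0 := by
    intro h3
    have h4 : y ^ 2 % 3 = 0 := by simp [Nat.pow_mod, h3]
    omega
  have h4 := sq_mod24 h2 h3
  omega

theorem nontriv_mul {r s : ℕ} (hr : 1 ≤ r) (h : Nat.Coprime r (24 * s + 1)) :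
    IsNontrivial (24 * r) (24 * s + 1) := by
  apply nontriv (by omega) (by omega)
  apply Nat.Coprime.mul_left _ h
  simp

/-- (B) in the language of the problem -/
theorem part2 (c : ℝ) (hc : 1 / 3 + 1 / Real.sqrt 3 < c) (X : ℕ) :
    ∃ N : ℕ, X < N ∧ 8 ≤ N ∧ (∃ k : ℤ, (N : ℤ) = k * (3 * k - 1) / 2 + 1) ∧
      ∀ q a : ℕ, IsNontrivial q a → ¬ 24 ∣ q → (Q N q a : ℝ) ≤ c * Qmax N := by
  obtain ⟨j, h1, h2⟩ := main_B c hc (X + 8)
  exact ⟨gg j + 1, by omega, by omega, (pent_iff _).2 ⟨j, rfl⟩, h2⟩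

theorem part2' (X : ℕ) :
    ∃ N : ℕ, X < N ∧ 8 ≤ N ∧ (∃ k : ℤ, (N : ℤ) = k * (3 * k - 1) / 2 + 1) ∧
      ∀ q a : ℕ, IsNontrivial q a → Q N q a = Qmax N → 24 ∣ q ∧ a % 24 = 1 := by
  have h0 : (1 : ℝ) / 3 + 1 / Real.sqrt 3 < 99 / 100 := by
    have h1 : (100 : ℝ) / 60 ≤ Real.sqrt 3 := by
      apply Real.le_sqrt_of_sq_le
      norm_num
    have h2 : 1 / Real.sqrt 3 ≤ 60 / 100 := by
      rw [div_le_iff₀ (by linarith)]
      linarith
    linarith
  obtain ⟨N, h1, h2, h3, h4⟩ := part2 (99 / 100) h0 X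
  refine ⟨N, h1, h2, h3, fun q a hn hmax => ?_⟩
  have hpos : 1 ≤ Qmax N := (F_pos (by omega)).trans (le_Qmax nontriv_24)
  have h24 : 24 ∣ q := by
    by_contra h24
    have h5 := h4 q a hn h24
    rw [hmax] at h5
    have h6 : (1 : ℝ) ≤ Qmax N := by exact_mod_cast hpos
    linarith
  exact ⟨h24, mod_of_dvd (N := N) hn h24 (by rw [hmax]; exact hpos)⟩

theorem part1 (N : ℕ) (hN : ∃ k : ℤ, (N : ℤ) = k * (3 * k - 1) / 2 + 1) (h52 : 52 < N)
    (h : ∀ M : ℕ, 8 ≤ M → (∃ k : ℤ, (M : ℤ) = k * (3 * k - 1) / 2 + 1) → M < N → Uniq M)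
    (q a : ℕ) (hn : IsNontrivial q a) (hge : Q N 24 1 ≤ Q N q a) : 24 ∣ q ∧ a % 24 = 1 := by
  obtain ⟨j, rfl⟩ := (pent_iff N).1 hN
  rw [F_gg] at hge
  refine main_A (j_ge h52) (fun i h4 hij => ?_) hn hge
  exact h _ (gg_ge4 h4) ((pent_iff _).2 ⟨i, rfl⟩) (by
    have := gg_strict hij
    omega)

theorem part3 :
    (∀ N : ℕ, 8 ≤ N → (∃ k : ℤ, (N : ℤ) = k * (3 * k - 1) / 2 + 1) → Uniq N) ↔
    (∀ N : ℕ, 8 ≤ N → (∃ k : ℤ, (N : ℤ) = k * (3 * k - 1) / 2 + 1) → N ≤ 52 → Uniq N) ∧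
    (∀ N : ℕ, (∃ k : ℤ, (N : ℤ) = k * (3 * k - 1) / 2 + 1) → 52 < N → ∀ r s : ℕ, 2 ≤ r →
      Nat.Coprime r (24 * s + 1) → Q N (24 * r) (24 * s + 1) < Q N 24 1) := by
  constructor
  · intro h
    refine ⟨fun N h8 hN _ => h N h8 hN, fun N hN h52 r s hr hrs => ?_⟩
    have hU := h N (by omega) hN
    obtain ⟨j, rfl⟩ := (pent_iff N).1 hN
    have h1 := Qmax_gg hU
    rw [F_gg]
    by_contra hlt
    push Not at hlt
    have hn := nontriv_mul (show 1 ≤ r by omega) hrs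
    have h2 := le_Qmax (N := gg j + 1) hn
    have h3 := hU _ _ hn (by omega)
    omega
  · rintro ⟨hsmall, hbig⟩ N
    induction N using Nat.strong_induction_on with
    | _ N ih =>
      intro h8 hN
      rcases le_or_gt N 52 with h52 | h52
      · exact hsmall N h8 hN h52
      · intro q a hn hmax
        have hge : Q N 24 1 ≤ Q N q a := by
          rw [hmax]
          exact le_Qmax nontriv_24
        obtain ⟨⟨r, rfl⟩, ha⟩ := part1 N hN h52 (fun M h8 hM hMN => ih M hMN h8 hM) q a hn hge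
        obtain ⟨s, rfl⟩ : ∃ s, a = 24 * s + 1 := ⟨a / 24, by omega⟩
        by_contra hne
        have hr0 : 1 ≤ r := by
          have := hn.1
          omega
        have hr : 2 ≤ r := by omega
        have hc : Nat.Coprime r (24 * s + 1) :=
          Nat.Coprime.coprime_mul_left hn.2.2.1
        have h1 := hbig N hN h52 r s hr hc
        omega

end Pool.Agent.W8ef934h4
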